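import Mathlib
set_option autoImplicit false

namespace Pool.Agent.Results.MP_f0f309_al.NoOrdering

/-- `B D` is skew-symmetric for a diagonal `D` with positive integer entries. -/
def SkewSymmetrizable {n : ℕ} (B : Matrix (Fin n) (Fin n) ℤ) : Prop :=
  ∃ d : Fin n → ℤ, (∀ i, 0 < d i) ∧ (B * Matrix.diagonal d).transpose = -(B * Matrix.diagonal d)

open Classical in
/-- The GIM determined by the linear ordering `lt`. -/
noncomputable def GIM {n : ℕ} (B : Matrix (Fin n) (Fin n) ℤ) (lt : Fin n → Fin n → Prop) :
    Matrix (Fin n) (Fin n) ℤ :=
  fun i j => if lt i j then B i j else if i = j then 2 else -B i j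

/-- A chordless cycle of length `e + 3`; indices in `Fin (e + 3)` are added cyclically. -/
def Chordless {n e : ℕ} (B : Matrix (Fin n) (Fin n) ℤ) (c : Fin (e + 3) → Fin n) : Prop :=
  Function.Injective c ∧ ∀ j k, j ≠ k → (B (c j) (c k) ≠ 0 ↔ j = k + 1 ∨ k = j + 1)

/-- All entries along the cycle have the same sign. -/
def Oriented {n e : ℕ} (B : Matrix (Fin n) (Fin n) ℤ) (c : Fin (e + 3) → Fin n) : Prop :=
  (∀ j, 0 < B (c j) (c (j + 1))) ∨ ∀ j, B (c j) (c (j + 1)) < 0

def B0 : Matrix (Fin 9) (Fin 9) ℤ :=
  !![0, 1, -1, 1, -1, -1, -1, -1, 1;
    -1, 0, 1, -1, 1, 1, 1, -1, -1;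
    1, -1, 0, -1, 1, 1, -1, 1, -1;
    -1, 1, 1, 0, -1, 1, -1, 1, -1;
    1, -1, -1, 1, 0, 1, -1, 1, 1;
    1, -1, -1, -1, -1, 0, 1, -1, 1;
    1, -1, 1, 1, 1, -1, 0, -1, -1;
    1, 1, -1, -1, -1, 1, 1, 0, -1;
    -1, 1, 1, 1, -1, -1, 1, 1, 0]

abbrev T (a b c : ℕ) : Prop := (b < a ∧ c < b) ∨ (c < b ∧ a < c) ∨ (a < c ∧ b < a)

lemma core (p0 p1 p2 p3 p4 p5 p6 p7 p8 : ℕ)
    (h0 : T p0 p1 p2)
    (h1 : T p0 p1 p5)
    (h2 : T p0 p1 p6)
    (h3 : T p0 p3 p2)
    (h4 : T p0 p8 p2)
    (h5 : T p0 p8 p6)
    (h6 : T p1 p2 p7)
    (h7 : T p1 p4 p3)
    (h8 : T p1 p4 p7)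
    (h9 : T p1 p4 p8)
    (h10 : T p1 p5 p8)
    (h11 : T p2 p4 p8)
    (h12 : T p2 p5 p6)
    (h13 : T p2 p5 p8)
    (h14 : T p2 p7 p6)
    (h15 : T p3 p5 p6)
    (h16 : T p4 p7 p6)
    (h17 : T p4 p8 p6) : False := by
  rcases h0 with h0 | h0 | h0
  · rcases h3 with h3 | h3 | h3
    · rcases h4 with h4 | h4 | h4
      · rcases h1 with h1 | h1 | h1
        · rcases h2 with h2 | h2 | h2
          · rcases h5 with h5 | h5 | h5
            · rcases h6 with h6 | h6 | h6
              · rcases h8 with h8 | h8 | h8
                · rcases h7 with h7 | h7 | h7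
                  · rcases h11 with h11 | h11 | h11
                    · clear * - h0 h1 h2 h3 h4 h5 h6 h7 h8 h11; omega
                    · rcases h10 with h10 | h10 | h10
                      · rcases h12 with h12 | h12 | h12
                        · clear * - h0 h1 h2 h3 h4 h5 h6 h7 h8 h10 h11 h12; omega
                        · rcases h16 with h16 | h16 | h16
                          · clear * - h0 h1 h2 h3 h4 h5 h6 h7 h8 h10 h11 h12 h16; omega
                          · clear * - h0 h1 h2 h3 h4 h5 h6 h7 h8 h10 h11 h12 h16; omega
                          · clear * - h0 h1 h2 h3 h4 h5 h6 h7 h8 h10 h11 h12 h16; omega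
                        · clear * - h0 h1 h2 h3 h4 h5 h6 h7 h8 h10 h11 h12; omega
                      · clear * - h0 h1 h2 h3 h4 h5 h6 h7 h8 h10 h11; omega
                      · clear * - h0 h1 h2 h3 h4 h5 h6 h7 h8 h10 h11; omega
                    · clear * - h0 h1 h2 h3 h4 h5 h6 h7 h8 h11; omega
                  · clear * - h0 h1 h2 h3 h4 h5 h6 h7 h8; omega
                  · rcases h15 with h15 | h15 | h15
                    · rcases h9 with h9 | h9 | h9
                      · rcases h10 with h10 | h10 | h10
                        · rcases h12 with h12 | h12 | h12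
                          · clear * - h0 h1 h2 h3 h4 h5 h6 h7 h8 h9 h10 h12 h15; omega
                          · rcases h16 with h16 | h16 | h16
                            · clear * - h0 h1 h2 h3 h4 h5 h6 h7 h8 h9 h10 h12 h15 h16; omega
                            · clear * - h0 h1 h2 h3 h4 h5 h6 h7 h8 h9 h10 h12 h15 h16; omega
                            · clear * - h0 h1 h2 h3 h4 h5 h6 h7 h8 h9 h10 h12 h15 h16; omega
                          · clear * - h0 h1 h2 h3 h4 h5 h6 h7 h8 h9 h10 h12 h15; omega
                        · clear * - h0 h1 h2 h3 h4 h5 h6 h7 h8 h9 h10 h15; omega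
                        · clear * - h0 h1 h2 h3 h4 h5 h6 h7 h8 h9 h10 h15; omega
                      · clear * - h0 h1 h2 h3 h4 h5 h6 h7 h8 h9 h15; omega
                      · rcases h11 with h11 | h11 | h11
                        · clear * - h0 h1 h2 h3 h4 h5 h6 h7 h8 h9 h11 h15; omega
                        · clear * - h0 h1 h2 h3 h4 h5 h6 h7 h8 h9 h11 h15; omega
                        · rcases h13 with h13 | h13 | h13
                          · clear * - h0 h1 h2 h3 h4 h5 h6 h7 h8 h9 h11 h13 h15; omega
                          · clear * - h0 h1 h2 h3 h4 h5 h6 h7 h8 h9 h11 h13 h15; omega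
                          · rcases h14 with h14 | h14 | h14
                            · rcases h17 with h17 | h17 | h17
                              · clear * - h0 h1 h2 h3 h4 h5 h6 h7 h8 h9 h11 h13 h14 h15 h17; omega
                              · clear * - h0 h1 h2 h3 h4 h5 h6 h7 h8 h9 h11 h13 h14 h15 h17; omega
                              · clear * - h0 h1 h2 h3 h4 h5 h6 h7 h8 h9 h11 h13 h14 h15 h17; omega
                            · clear * - h0 h1 h2 h3 h4 h5 h6 h7 h8 h9 h11 h13 h14 h15; omega
                            · clear * - h0 h1 h2 h3 h4 h5 h6 h7 h8 h9 h11 h13 h14 h15; omega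
                    · clear * - h0 h1 h2 h3 h4 h5 h6 h7 h8 h15; omega
                    · clear * - h0 h1 h2 h3 h4 h5 h6 h7 h8 h15; omega
                · clear * - h0 h1 h2 h3 h4 h5 h6 h8; omega
                · clear * - h0 h1 h2 h3 h4 h5 h6 h8; omega
              · clear * - h0 h1 h2 h3 h4 h5 h6; omega
              · rcases h14 with h14 | h14 | h14
                · clear * - h0 h1 h2 h3 h4 h5 h6 h14; omega
                · rcases h8 with h8 | h8 | h8
                  · clear * - h0 h1 h2 h3 h4 h5 h6 h8 h14; omega
                  · rcases h7 with h7 | h7 | h7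
                    · clear * - h0 h1 h2 h3 h4 h5 h6 h7 h8 h14; omega
                    · rcases h9 with h9 | h9 | h9
                      · clear * - h0 h1 h2 h3 h4 h5 h6 h7 h8 h9 h14; omega
                      · rcases h13 with h13 | h13 | h13
                        · clear * - h0 h1 h2 h3 h4 h5 h6 h7 h8 h9 h13 h14; omega
                        · clear * - h0 h1 h2 h3 h4 h5 h6 h7 h8 h9 h13 h14; omega
                        · rcases h15 with h15 | h15 | h15
                          · clear * - h0 h1 h2 h3 h4 h5 h6 h7 h8 h9 h13 h14 h15; omega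
                          · clear * - h0 h1 h2 h3 h4 h5 h6 h7 h8 h9 h13 h14 h15; omega
                          · clear * - h0 h1 h2 h3 h4 h5 h6 h7 h8 h9 h13 h14 h15; omega
                      · clear * - h0 h1 h2 h3 h4 h5 h6 h7 h8 h9 h14; omega
                    · clear * - h0 h1 h2 h3 h4 h5 h6 h7 h8 h14; omega
                  · rcases h16 with h16 | h16 | h16
                    · clear * - h0 h1 h2 h3 h4 h5 h6 h8 h14 h16; omega
                    · rcases h9 with h9 | h9 | h9
                      · clear * - h0 h1 h2 h3 h4 h5 h6 h8 h9 h14 h16; omega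
                      · clear * - h0 h1 h2 h3 h4 h5 h6 h8 h9 h14 h16; omega
                      · rcases h11 with h11 | h11 | h11
                        · clear * - h0 h1 h2 h3 h4 h5 h6 h8 h9 h11 h14 h16; omega
                        · clear * - h0 h1 h2 h3 h4 h5 h6 h8 h9 h11 h14 h16; omega
                        · rcases h7 with h7 | h7 | h7
                          · clear * - h0 h1 h2 h3 h4 h5 h6 h7 h8 h9 h11 h14 h16; omega
                          · clear * - h0 h1 h2 h3 h4 h5 h6 h7 h8 h9 h11 h14 h16; omega
                          · rcases h13 with h13 | h13 | h13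
                            · clear * - h0 h1 h2 h3 h4 h5 h6 h7 h8 h9 h11 h13 h14 h16; omega
                            · clear * - h0 h1 h2 h3 h4 h5 h6 h7 h8 h9 h11 h13 h14 h16; omega
                            · rcases h15 with h15 | h15 | h15
                              · clear * - h0 h1 h2 h3 h4 h5 h6 h7 h8 h9 h11 h13 h14 h15 h16; omega
                              · clear * - h0 h1 h2 h3 h4 h5 h6 h7 h8 h9 h11 h13 h14 h15 h16; omega
                              · clear * - h0 h1 h2 h3 h4 h5 h6 h7 h8 h9 h11 h13 h14 h15 h16; omega
                    · clear * - h0 h1 h2 h3 h4 h5 h6 h8 h14 h16; omega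
                · clear * - h0 h1 h2 h3 h4 h5 h6 h14; omega
            · clear * - h0 h1 h2 h3 h4 h5; omega
            · clear * - h0 h1 h2 h3 h4 h5; omega
          · clear * - h0 h1 h2 h3 h4; omega
          · rcases h12 with h12 | h12 | h12
            · clear * - h0 h1 h2 h3 h4 h12; omega
            · clear * - h0 h1 h2 h3 h4 h12; omega
            · rcases h10 with h10 | h10 | h10
              · clear * - h0 h1 h2 h3 h4 h10 h12; omega
              · clear * - h0 h1 h2 h3 h4 h10 h12; omega
              · rcases h17 with h17 | h17 | h17
                · clear * - h0 h1 h2 h3 h4 h10 h12 h17; omega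
                · clear * - h0 h1 h2 h3 h4 h10 h12 h17; omega
                · rcases h7 with h7 | h7 | h7
                  · clear * - h0 h1 h2 h3 h4 h7 h10 h12 h17; omega
                  · rcases h8 with h8 | h8 | h8
                    · clear * - h0 h1 h2 h3 h4 h7 h8 h10 h12 h17; omega
                    · rcases h14 with h14 | h14 | h14
                      · clear * - h0 h1 h2 h3 h4 h7 h8 h10 h12 h14 h17; omega
                      · clear * - h0 h1 h2 h3 h4 h7 h8 h10 h12 h14 h17; omega
                      · clear * - h0 h1 h2 h3 h4 h7 h8 h10 h12 h14 h17; omega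
                    · clear * - h0 h1 h2 h3 h4 h7 h8 h10 h12 h17; omega
                  · clear * - h0 h1 h2 h3 h4 h7 h10 h12 h17; omega
        · clear * - h0 h1 h3 h4; omega
        · rcases h10 with h10 | h10 | h10
          · clear * - h0 h1 h3 h4 h10; omega
          · rcases h12 with h12 | h12 | h12
            · clear * - h0 h1 h3 h4 h10 h12; omega
            · rcases h15 with h15 | h15 | h15
              · clear * - h0 h1 h3 h4 h10 h12 h15; omega
              · rcases h2 with h2 | h2 | h2
                · rcases h7 with h7 | h7 | h7
                  · rcases h11 with h11 | h11 | h11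
                    · clear * - h0 h1 h2 h3 h4 h7 h10 h11 h12 h15; omega
                    · clear * - h0 h1 h2 h3 h4 h7 h10 h11 h12 h15; omega
                    · clear * - h0 h1 h2 h3 h4 h7 h10 h11 h12 h15; omega
                  · clear * - h0 h1 h2 h3 h4 h7 h10 h12 h15; omega
                  · clear * - h0 h1 h2 h3 h4 h7 h10 h12 h15; omega
                · clear * - h0 h1 h2 h3 h4 h10 h12 h15; omega
                · rcases h17 with h17 | h17 | h17
                  · clear * - h0 h1 h2 h3 h4 h10 h12 h15 h17; omega
                  · clear * - h0 h1 h2 h3 h4 h10 h12 h15 h17; omega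
                  · rcases h7 with h7 | h7 | h7
                    · clear * - h0 h1 h2 h3 h4 h7 h10 h12 h15 h17; omega
                    · rcases h8 with h8 | h8 | h8
                      · clear * - h0 h1 h2 h3 h4 h7 h8 h10 h12 h15 h17; omega
                      · rcases h14 with h14 | h14 | h14
                        · clear * - h0 h1 h2 h3 h4 h7 h8 h10 h12 h14 h15 h17; omega
                        · clear * - h0 h1 h2 h3 h4 h7 h8 h10 h12 h14 h15 h17; omega
                        · clear * - h0 h1 h2 h3 h4 h7 h8 h10 h12 h14 h15 h17; omega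
                      · clear * - h0 h1 h2 h3 h4 h7 h8 h10 h12 h15 h17; omega
                    · clear * - h0 h1 h2 h3 h4 h7 h10 h12 h15 h17; omega
              · clear * - h0 h1 h3 h4 h10 h12 h15; omega
            · clear * - h0 h1 h3 h4 h10 h12; omega
          · clear * - h0 h1 h3 h4 h10; omega
      · clear * - h0 h3 h4; omega
      · clear * - h0 h3 h4; omega
    · clear * - h0 h3; omega
    · clear * - h0 h3; omega
  · rcases h1 with h1 | h1 | h1
    · clear * - h0 h1; omega
    · rcases h2 with h2 | h2 | h2
      · clear * - h0 h1 h2; omega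
      · rcases h3 with h3 | h3 | h3
        · clear * - h0 h1 h2 h3; omega
        · rcases h4 with h4 | h4 | h4
          · clear * - h0 h1 h2 h3 h4; omega
          · rcases h5 with h5 | h5 | h5
            · clear * - h0 h1 h2 h3 h4 h5; omega
            · rcases h6 with h6 | h6 | h6
              · rcases h8 with h8 | h8 | h8
                · rcases h7 with h7 | h7 | h7
                  · rcases h11 with h11 | h11 | h11
                    · clear * - h0 h1 h2 h3 h4 h5 h6 h7 h8 h11; omega
                    · rcases h10 with h10 | h10 | h10
                      · rcases h12 with h12 | h12 | h12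
                        · clear * - h0 h1 h2 h3 h4 h5 h6 h7 h8 h10 h11 h12; omega
                        · rcases h16 with h16 | h16 | h16
                          · clear * - h0 h1 h2 h3 h4 h5 h6 h7 h8 h10 h11 h12 h16; omega
                          · clear * - h0 h1 h2 h3 h4 h5 h6 h7 h8 h10 h11 h12 h16; omega
                          · clear * - h0 h1 h2 h3 h4 h5 h6 h7 h8 h10 h11 h12 h16; omega
                        · clear * - h0 h1 h2 h3 h4 h5 h6 h7 h8 h10 h11 h12; omega
                      · clear * - h0 h1 h2 h3 h4 h5 h6 h7 h8 h10 h11; omega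
                      · clear * - h0 h1 h2 h3 h4 h5 h6 h7 h8 h10 h11; omega
                    · clear * - h0 h1 h2 h3 h4 h5 h6 h7 h8 h11; omega
                  · clear * - h0 h1 h2 h3 h4 h5 h6 h7 h8; omega
                  · rcases h15 with h15 | h15 | h15
                    · rcases h9 with h9 | h9 | h9
                      · rcases h10 with h10 | h10 | h10
                        · rcases h12 with h12 | h12 | h12
                          · clear * - h0 h1 h2 h3 h4 h5 h6 h7 h8 h9 h10 h12 h15; omega
                          · rcases h16 with h16 | h16 | h16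
                            · clear * - h0 h1 h2 h3 h4 h5 h6 h7 h8 h9 h10 h12 h15 h16; omega
                            · clear * - h0 h1 h2 h3 h4 h5 h6 h7 h8 h9 h10 h12 h15 h16; omega
                            · clear * - h0 h1 h2 h3 h4 h5 h6 h7 h8 h9 h10 h12 h15 h16; omega
                          · clear * - h0 h1 h2 h3 h4 h5 h6 h7 h8 h9 h10 h12 h15; omega
                        · clear * - h0 h1 h2 h3 h4 h5 h6 h7 h8 h9 h10 h15; omega
                        · clear * - h0 h1 h2 h3 h4 h5 h6 h7 h8 h9 h10 h15; omega
                      · clear * - h0 h1 h2 h3 h4 h5 h6 h7 h8 h9 h15; omega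
                      · rcases h11 with h11 | h11 | h11
                        · clear * - h0 h1 h2 h3 h4 h5 h6 h7 h8 h9 h11 h15; omega
                        · clear * - h0 h1 h2 h3 h4 h5 h6 h7 h8 h9 h11 h15; omega
                        · rcases h13 with h13 | h13 | h13
                          · clear * - h0 h1 h2 h3 h4 h5 h6 h7 h8 h9 h11 h13 h15; omega
                          · clear * - h0 h1 h2 h3 h4 h5 h6 h7 h8 h9 h11 h13 h15; omega
                          · rcases h14 with h14 | h14 | h14
                            · rcases h17 with h17 | h17 | h17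
                              · clear * - h0 h1 h2 h3 h4 h5 h6 h7 h8 h9 h11 h13 h14 h15 h17; omega
                              · clear * - h0 h1 h2 h3 h4 h5 h6 h7 h8 h9 h11 h13 h14 h15 h17; omega
                              · clear * - h0 h1 h2 h3 h4 h5 h6 h7 h8 h9 h11 h13 h14 h15 h17; omega
                            · clear * - h0 h1 h2 h3 h4 h5 h6 h7 h8 h9 h11 h13 h14 h15; omega
                            · clear * - h0 h1 h2 h3 h4 h5 h6 h7 h8 h9 h11 h13 h14 h15; omega
                    · clear * - h0 h1 h2 h3 h4 h5 h6 h7 h8 h15; omega
                    · clear * - h0 h1 h2 h3 h4 h5 h6 h7 h8 h15; omega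
                · clear * - h0 h1 h2 h3 h4 h5 h6 h8; omega
                · clear * - h0 h1 h2 h3 h4 h5 h6 h8; omega
              · clear * - h0 h1 h2 h3 h4 h5 h6; omega
              · rcases h14 with h14 | h14 | h14
                · clear * - h0 h1 h2 h3 h4 h5 h6 h14; omega
                · rcases h8 with h8 | h8 | h8
                  · clear * - h0 h1 h2 h3 h4 h5 h6 h8 h14; omega
                  · rcases h7 with h7 | h7 | h7
                    · clear * - h0 h1 h2 h3 h4 h5 h6 h7 h8 h14; omega
                    · rcases h9 with h9 | h9 | h9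
                      · clear * - h0 h1 h2 h3 h4 h5 h6 h7 h8 h9 h14; omega
                      · rcases h13 with h13 | h13 | h13
                        · clear * - h0 h1 h2 h3 h4 h5 h6 h7 h8 h9 h13 h14; omega
                        · clear * - h0 h1 h2 h3 h4 h5 h6 h7 h8 h9 h13 h14; omega
                        · rcases h15 with h15 | h15 | h15
                          · clear * - h0 h1 h2 h3 h4 h5 h6 h7 h8 h9 h13 h14 h15; omega
                          · clear * - h0 h1 h2 h3 h4 h5 h6 h7 h8 h9 h13 h14 h15; omega
                          · clear * - h0 h1 h2 h3 h4 h5 h6 h7 h8 h9 h13 h14 h15; omega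
                      · clear * - h0 h1 h2 h3 h4 h5 h6 h7 h8 h9 h14; omega
                    · clear * - h0 h1 h2 h3 h4 h5 h6 h7 h8 h14; omega
                  · rcases h16 with h16 | h16 | h16
                    · clear * - h0 h1 h2 h3 h4 h5 h6 h8 h14 h16; omega
                    · rcases h9 with h9 | h9 | h9
                      · clear * - h0 h1 h2 h3 h4 h5 h6 h8 h9 h14 h16; omega
                      · clear * - h0 h1 h2 h3 h4 h5 h6 h8 h9 h14 h16; omega
                      · rcases h11 with h11 | h11 | h11
                        · clear * - h0 h1 h2 h3 h4 h5 h6 h8 h9 h11 h14 h16; omega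
                        · clear * - h0 h1 h2 h3 h4 h5 h6 h8 h9 h11 h14 h16; omega
                        · rcases h7 with h7 | h7 | h7
                          · clear * - h0 h1 h2 h3 h4 h5 h6 h7 h8 h9 h11 h14 h16; omega
                          · clear * - h0 h1 h2 h3 h4 h5 h6 h7 h8 h9 h11 h14 h16; omega
                          · rcases h13 with h13 | h13 | h13
                            · clear * - h0 h1 h2 h3 h4 h5 h6 h7 h8 h9 h11 h13 h14 h16; omega
                            · clear * - h0 h1 h2 h3 h4 h5 h6 h7 h8 h9 h11 h13 h14 h16; omega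
                            · rcases h15 with h15 | h15 | h15
                              · clear * - h0 h1 h2 h3 h4 h5 h6 h7 h8 h9 h11 h13 h14 h15 h16; omega
                              · clear * - h0 h1 h2 h3 h4 h5 h6 h7 h8 h9 h11 h13 h14 h15 h16; omega
                              · clear * - h0 h1 h2 h3 h4 h5 h6 h7 h8 h9 h11 h13 h14 h15 h16; omega
                    · clear * - h0 h1 h2 h3 h4 h5 h6 h8 h14 h16; omega
                · clear * - h0 h1 h2 h3 h4 h5 h6 h14; omega
            · clear * - h0 h1 h2 h3 h4 h5; omega
          · rcases h9 with h9 | h9 | h9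
            · rcases h11 with h11 | h11 | h11
              · rcases h7 with h7 | h7 | h7
                · clear * - h0 h1 h2 h3 h4 h7 h9 h11; omega
                · clear * - h0 h1 h2 h3 h4 h7 h9 h11; omega
                · rcases h13 with h13 | h13 | h13
                  · rcases h15 with h15 | h15 | h15
                    · rcases h14 with h14 | h14 | h14
                      · rcases h8 with h8 | h8 | h8
                        · rcases h17 with h17 | h17 | h17
                          · clear * - h0 h1 h2 h3 h4 h7 h8 h9 h11 h13 h14 h15 h17; omega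
                          · clear * - h0 h1 h2 h3 h4 h7 h8 h9 h11 h13 h14 h15 h17; omega
                          · clear * - h0 h1 h2 h3 h4 h7 h8 h9 h11 h13 h14 h15 h17; omega
                        · clear * - h0 h1 h2 h3 h4 h7 h8 h9 h11 h13 h14 h15; omega
                        · clear * - h0 h1 h2 h3 h4 h7 h8 h9 h11 h13 h14 h15; omega
                      · clear * - h0 h1 h2 h3 h4 h7 h9 h11 h13 h14 h15; omega
                      · clear * - h0 h1 h2 h3 h4 h7 h9 h11 h13 h14 h15; omega
                    · clear * - h0 h1 h2 h3 h4 h7 h9 h11 h13 h15; omega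
                    · clear * - h0 h1 h2 h3 h4 h7 h9 h11 h13 h15; omega
                  · clear * - h0 h1 h2 h3 h4 h7 h9 h11 h13; omega
                  · clear * - h0 h1 h2 h3 h4 h7 h9 h11 h13; omega
              · clear * - h0 h1 h2 h3 h4 h9 h11; omega
              · clear * - h0 h1 h2 h3 h4 h9 h11; omega
            · clear * - h0 h1 h2 h3 h4 h9; omega
            · clear * - h0 h1 h2 h3 h4 h9; omega
        · rcases h7 with h7 | h7 | h7
          · rcases h15 with h15 | h15 | h15
            · clear * - h0 h1 h2 h3 h7 h15; omega
            · rcases h4 with h4 | h4 | h4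
              · clear * - h0 h1 h2 h3 h4 h7 h15; omega
              · rcases h5 with h5 | h5 | h5
                · clear * - h0 h1 h2 h3 h4 h5 h7 h15; omega
                · rcases h6 with h6 | h6 | h6
                  · rcases h8 with h8 | h8 | h8
                    · rcases h9 with h9 | h9 | h9
                      · rcases h10 with h10 | h10 | h10
                        · rcases h12 with h12 | h12 | h12
                          · clear * - h0 h1 h2 h3 h4 h5 h6 h7 h8 h9 h10 h12 h15; omega
                          · rcases h16 with h16 | h16 | h16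
                            · clear * - h0 h1 h2 h3 h4 h5 h6 h7 h8 h9 h10 h12 h15 h16; omega
                            · clear * - h0 h1 h2 h3 h4 h5 h6 h7 h8 h9 h10 h12 h15 h16; omega
                            · clear * - h0 h1 h2 h3 h4 h5 h6 h7 h8 h9 h10 h12 h15 h16; omega
                          · clear * - h0 h1 h2 h3 h4 h5 h6 h7 h8 h9 h10 h12 h15; omega
                        · clear * - h0 h1 h2 h3 h4 h5 h6 h7 h8 h9 h10 h15; omega
                        · clear * - h0 h1 h2 h3 h4 h5 h6 h7 h8 h9 h10 h15; omega
                      · clear * - h0 h1 h2 h3 h4 h5 h6 h7 h8 h9 h15; omega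
                      · rcases h11 with h11 | h11 | h11
                        · clear * - h0 h1 h2 h3 h4 h5 h6 h7 h8 h9 h11 h15; omega
                        · clear * - h0 h1 h2 h3 h4 h5 h6 h7 h8 h9 h11 h15; omega
                        · rcases h13 with h13 | h13 | h13
                          · clear * - h0 h1 h2 h3 h4 h5 h6 h7 h8 h9 h11 h13 h15; omega
                          · clear * - h0 h1 h2 h3 h4 h5 h6 h7 h8 h9 h11 h13 h15; omega
                          · rcases h14 with h14 | h14 | h14
                            · rcases h17 with h17 | h17 | h17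
                              · clear * - h0 h1 h2 h3 h4 h5 h6 h7 h8 h9 h11 h13 h14 h15 h17; omega
                              · clear * - h0 h1 h2 h3 h4 h5 h6 h7 h8 h9 h11 h13 h14 h15 h17; omega
                              · clear * - h0 h1 h2 h3 h4 h5 h6 h7 h8 h9 h11 h13 h14 h15 h17; omega
                            · clear * - h0 h1 h2 h3 h4 h5 h6 h7 h8 h9 h11 h13 h14 h15; omega
                            · clear * - h0 h1 h2 h3 h4 h5 h6 h7 h8 h9 h11 h13 h14 h15; omega
                    · clear * - h0 h1 h2 h3 h4 h5 h6 h7 h8 h15; omega
                    · clear * - h0 h1 h2 h3 h4 h5 h6 h7 h8 h15; omega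
                  · clear * - h0 h1 h2 h3 h4 h5 h6 h7 h15; omega
                  · rcases h14 with h14 | h14 | h14
                    · clear * - h0 h1 h2 h3 h4 h5 h6 h7 h14 h15; omega
                    · rcases h13 with h13 | h13 | h13
                      · clear * - h0 h1 h2 h3 h4 h5 h6 h7 h13 h14 h15; omega
                      · rcases h9 with h9 | h9 | h9
                        · rcases h16 with h16 | h16 | h16
                          · clear * - h0 h1 h2 h3 h4 h5 h6 h7 h9 h13 h14 h15 h16; omega
                          · clear * - h0 h1 h2 h3 h4 h5 h6 h7 h9 h13 h14 h15 h16; omega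
                          · clear * - h0 h1 h2 h3 h4 h5 h6 h7 h9 h13 h14 h15 h16; omega
                        · clear * - h0 h1 h2 h3 h4 h5 h6 h7 h9 h13 h14 h15; omega
                        · clear * - h0 h1 h2 h3 h4 h5 h6 h7 h9 h13 h14 h15; omega
                      · clear * - h0 h1 h2 h3 h4 h5 h6 h7 h13 h14 h15; omega
                    · clear * - h0 h1 h2 h3 h4 h5 h6 h7 h14 h15; omega
                · clear * - h0 h1 h2 h3 h4 h5 h7 h15; omega
              · rcases h9 with h9 | h9 | h9
                · rcases h11 with h11 | h11 | h11
                  · rcases h13 with h13 | h13 | h13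
                    · rcases h14 with h14 | h14 | h14
                      · rcases h8 with h8 | h8 | h8
                        · rcases h17 with h17 | h17 | h17
                          · clear * - h0 h1 h2 h3 h4 h7 h8 h9 h11 h13 h14 h15 h17; omega
                          · clear * - h0 h1 h2 h3 h4 h7 h8 h9 h11 h13 h14 h15 h17; omega
                          · clear * - h0 h1 h2 h3 h4 h7 h8 h9 h11 h13 h14 h15 h17; omega
                        · clear * - h0 h1 h2 h3 h4 h7 h8 h9 h11 h13 h14 h15; omega
                        · clear * - h0 h1 h2 h3 h4 h7 h8 h9 h11 h13 h14 h15; omega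
                      · clear * - h0 h1 h2 h3 h4 h7 h9 h11 h13 h14 h15; omega
                      · clear * - h0 h1 h2 h3 h4 h7 h9 h11 h13 h14 h15; omega
                    · clear * - h0 h1 h2 h3 h4 h7 h9 h11 h13 h15; omega
                    · clear * - h0 h1 h2 h3 h4 h7 h9 h11 h13 h15; omega
                  · clear * - h0 h1 h2 h3 h4 h7 h9 h11 h15; omega
                  · clear * - h0 h1 h2 h3 h4 h7 h9 h11 h15; omega
                · clear * - h0 h1 h2 h3 h4 h7 h9 h15; omega
                · clear * - h0 h1 h2 h3 h4 h7 h9 h15; omega
            · clear * - h0 h1 h2 h3 h7 h15; omega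
          · clear * - h0 h1 h2 h3 h7; omega
          · clear * - h0 h1 h2 h3 h7; omega
      · clear * - h0 h1 h2; omega
    · clear * - h0 h1; omega
  · rcases h6 with h6 | h6 | h6
    · clear * - h0 h6; omega
    · rcases h1 with h1 | h1 | h1
      · rcases h2 with h2 | h2 | h2
        · rcases h5 with h5 | h5 | h5
          · rcases h11 with h11 | h11 | h11
            · rcases h12 with h12 | h12 | h12
              · rcases h13 with h13 | h13 | h13
                · rcases h9 with h9 | h9 | h9
                  · rcases h16 with h16 | h16 | h16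
                    · clear * - h0 h1 h2 h5 h6 h9 h11 h12 h13 h16; omega
                    · clear * - h0 h1 h2 h5 h6 h9 h11 h12 h13 h16; omega
                    · clear * - h0 h1 h2 h5 h6 h9 h11 h12 h13 h16; omega
                  · clear * - h0 h1 h2 h5 h6 h9 h11 h12 h13; omega
                  · clear * - h0 h1 h2 h5 h6 h9 h11 h12 h13; omega
                · clear * - h0 h1 h2 h5 h6 h11 h12 h13; omega
                · clear * - h0 h1 h2 h5 h6 h11 h12 h13; omega
              · clear * - h0 h1 h2 h5 h6 h11 h12; omega
              · clear * - h0 h1 h2 h5 h6 h11 h12; omega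
            · clear * - h0 h1 h2 h5 h6 h11; omega
            · clear * - h0 h1 h2 h5 h6 h11; omega
          · clear * - h0 h1 h2 h5 h6; omega
          · clear * - h0 h1 h2 h5 h6; omega
        · clear * - h0 h1 h2 h6; omega
        · rcases h12 with h12 | h12 | h12
          · clear * - h0 h1 h2 h6 h12; omega
          · clear * - h0 h1 h2 h6 h12; omega
          · rcases h15 with h15 | h15 | h15
            · clear * - h0 h1 h2 h6 h12 h15; omega
            · clear * - h0 h1 h2 h6 h12 h15; omega
            · rcases h16 with h16 | h16 | h16
              · clear * - h0 h1 h2 h6 h12 h15 h16; omega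
              · clear * - h0 h1 h2 h6 h12 h15 h16; omega
              · rcases h7 with h7 | h7 | h7
                · clear * - h0 h1 h2 h6 h7 h12 h15 h16; omega
                · rcases h9 with h9 | h9 | h9
                  · clear * - h0 h1 h2 h6 h7 h9 h12 h15 h16; omega
                  · rcases h5 with h5 | h5 | h5
                    · clear * - h0 h1 h2 h5 h6 h7 h9 h12 h15 h16; omega
                    · clear * - h0 h1 h2 h5 h6 h7 h9 h12 h15 h16; omega
                    · rcases h13 with h13 | h13 | h13
                      · clear * - h0 h1 h2 h5 h6 h7 h9 h12 h13 h15 h16; omega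
                      · clear * - h0 h1 h2 h5 h6 h7 h9 h12 h13 h15 h16; omega
                      · clear * - h0 h1 h2 h5 h6 h7 h9 h12 h13 h15 h16; omega
                  · clear * - h0 h1 h2 h6 h7 h9 h12 h15 h16; omega
                · clear * - h0 h1 h2 h6 h7 h12 h15 h16; omega
      · clear * - h0 h1 h6; omega
      · rcases h10 with h10 | h10 | h10
        · clear * - h0 h1 h6 h10; omega
        · rcases h2 with h2 | h2 | h2
          · rcases h5 with h5 | h5 | h5
            · rcases h11 with h11 | h11 | h11
              · rcases h7 with h7 | h7 | h7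
                · clear * - h0 h1 h2 h5 h6 h7 h10 h11; omega
                · rcases h3 with h3 | h3 | h3
                  · clear * - h0 h1 h2 h3 h5 h6 h7 h10 h11; omega
                  · clear * - h0 h1 h2 h3 h5 h6 h7 h10 h11; omega
                  · rcases h15 with h15 | h15 | h15
                    · clear * - h0 h1 h2 h3 h5 h6 h7 h10 h11 h15; omega
                    · clear * - h0 h1 h2 h3 h5 h6 h7 h10 h11 h15; omega
                    · clear * - h0 h1 h2 h3 h5 h6 h7 h10 h11 h15; omega
                · clear * - h0 h1 h2 h5 h6 h7 h10 h11; omega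
              · clear * - h0 h1 h2 h5 h6 h10 h11; omega
              · clear * - h0 h1 h2 h5 h6 h10 h11; omega
            · clear * - h0 h1 h2 h5 h6 h10; omega
            · clear * - h0 h1 h2 h5 h6 h10; omega
          · clear * - h0 h1 h2 h6 h10; omega
          · rcases h3 with h3 | h3 | h3
            · clear * - h0 h1 h2 h3 h6 h10; omega
            · rcases h4 with h4 | h4 | h4
              · clear * - h0 h1 h2 h3 h4 h6 h10; omega
              · rcases h5 with h5 | h5 | h5
                · clear * - h0 h1 h2 h3 h4 h5 h6 h10; omega
                · rcases h12 with h12 | h12 | h12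
                  · clear * - h0 h1 h2 h3 h4 h5 h6 h10 h12; omega
                  · rcases h16 with h16 | h16 | h16
                    · clear * - h0 h1 h2 h3 h4 h5 h6 h10 h12 h16; omega
                    · clear * - h0 h1 h2 h3 h4 h5 h6 h10 h12 h16; omega
                    · rcases h9 with h9 | h9 | h9
                      · clear * - h0 h1 h2 h3 h4 h5 h6 h9 h10 h12 h16; omega
                      · clear * - h0 h1 h2 h3 h4 h5 h6 h9 h10 h12 h16; omega
                      · clear * - h0 h1 h2 h3 h4 h5 h6 h9 h10 h12 h16; omega
                  · clear * - h0 h1 h2 h3 h4 h5 h6 h10 h12; omega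
                · clear * - h0 h1 h2 h3 h4 h5 h6 h10; omega
              · rcases h11 with h11 | h11 | h11
                · rcases h7 with h7 | h7 | h7
                  · clear * - h0 h1 h2 h3 h4 h6 h7 h10 h11; omega
                  · clear * - h0 h1 h2 h3 h4 h6 h7 h10 h11; omega
                  · clear * - h0 h1 h2 h3 h4 h6 h7 h10 h11; omega
                · clear * - h0 h1 h2 h3 h4 h6 h10 h11; omega
                · clear * - h0 h1 h2 h3 h4 h6 h10 h11; omega
            · rcases h15 with h15 | h15 | h15
              · clear * - h0 h1 h2 h3 h6 h10 h15; omega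
              · rcases h4 with h4 | h4 | h4
                · clear * - h0 h1 h2 h3 h4 h6 h10 h15; omega
                · rcases h5 with h5 | h5 | h5
                  · clear * - h0 h1 h2 h3 h4 h5 h6 h10 h15; omega
                  · rcases h12 with h12 | h12 | h12
                    · clear * - h0 h1 h2 h3 h4 h5 h6 h10 h12 h15; omega
                    · rcases h16 with h16 | h16 | h16
                      · clear * - h0 h1 h2 h3 h4 h5 h6 h10 h12 h15 h16; omega
                      · clear * - h0 h1 h2 h3 h4 h5 h6 h10 h12 h15 h16; omega
                      · rcases h9 with h9 | h9 | h9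
                        · clear * - h0 h1 h2 h3 h4 h5 h6 h9 h10 h12 h15 h16; omega
                        · clear * - h0 h1 h2 h3 h4 h5 h6 h9 h10 h12 h15 h16; omega
                        · clear * - h0 h1 h2 h3 h4 h5 h6 h9 h10 h12 h15 h16; omega
                    · clear * - h0 h1 h2 h3 h4 h5 h6 h10 h12 h15; omega
                  · clear * - h0 h1 h2 h3 h4 h5 h6 h10 h15; omega
                · rcases h11 with h11 | h11 | h11
                  · rcases h7 with h7 | h7 | h7
                    · clear * - h0 h1 h2 h3 h4 h6 h7 h10 h11 h15; omega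
                    · rcases h8 with h8 | h8 | h8
                      · clear * - h0 h1 h2 h3 h4 h6 h7 h8 h10 h11 h15; omega
                      · rcases h13 with h13 | h13 | h13
                        · rcases h14 with h14 | h14 | h14
                          · rcases h17 with h17 | h17 | h17
                            · clear * - h0 h1 h2 h3 h4 h6 h7 h8 h10 h11 h13 h14 h15 h17; omega
                            · clear * - h0 h1 h2 h3 h4 h6 h7 h8 h10 h11 h13 h14 h15 h17; omega
                            · clear * - h0 h1 h2 h3 h4 h6 h7 h8 h10 h11 h13 h14 h15 h17; omega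
                          · clear * - h0 h1 h2 h3 h4 h6 h7 h8 h10 h11 h13 h14 h15; omega
                          · clear * - h0 h1 h2 h3 h4 h6 h7 h8 h10 h11 h13 h14 h15; omega
                        · clear * - h0 h1 h2 h3 h4 h6 h7 h8 h10 h11 h13 h15; omega
                        · clear * - h0 h1 h2 h3 h4 h6 h7 h8 h10 h11 h13 h15; omega
                      · clear * - h0 h1 h2 h3 h4 h6 h7 h8 h10 h11 h15; omega
                    · clear * - h0 h1 h2 h3 h4 h6 h7 h10 h11 h15; omega
                  · clear * - h0 h1 h2 h3 h4 h6 h10 h11 h15; omega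
                  · clear * - h0 h1 h2 h3 h4 h6 h10 h11 h15; omega
              · clear * - h0 h1 h2 h3 h6 h10 h15; omega
        · clear * - h0 h1 h6 h10; omega
    · clear * - h0 h6; omega

lemma nz : ∀ a b : Fin 9, a ≠ b → B0 a b ≠ 0 := by decide
lemma dg : ∀ a : Fin 9, B0 a a = 0 := by decide

theorem result : ∃ (n : ℕ) (B : Matrix (Fin n) (Fin n) ℤ), 1 ≤ n ∧ SkewSymmetrizable B ∧
    ∀ lt : Fin n → Fin n → Prop, IsStrictTotalOrder (Fin n) lt →
      ∃ (e : ℕ) (c : Fin (e + 3) → Fin n), Chordless B c ∧ Oriented B c ∧
        Even (Finset.univ.filter fun j => 0 < GIM B lt (c j) (c (j + 1))).card := by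
  classical
  refine ⟨9, B0, by norm_num, ⟨fun _ => 1, fun _ => one_pos, ?_⟩, fun lt hlt => ?_⟩
  · rw [Matrix.diagonal_one, mul_one]; decide
  by_contra H
  push Not at H
  let p : Fin 9 → ℕ := fun i => (Finset.univ.filter fun j => lt j i).card
  have hp : ∀ a b, lt a b → p a < p b := fun a b h => by
    apply Finset.card_lt_card
    refine ⟨fun j hj => ?_, fun hh => ?_⟩
    · simp only [Finset.mem_filter, Finset.mem_univ, true_and] at hj ⊢
      exact _root_.trans hj h
    · have := @hh a (by simpa using h)
      simp only [Finset.mem_filter, Finset.mem_univ, true_and] at this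
      exact irrefl a this
  have t : ∀ a b c, B0 a b = 1 → B0 b c = 1 → B0 c a = 1 → T (p a) (p b) (p c) := by
    intro a b c h1 h2 h3
    have ne : ∀ x y, B0 x y = 1 → x ≠ y := fun x y h e => by rw [e, dg] at h; omega
    have n1 := ne _ _ h1
    have n2 := ne _ _ h2
    have n3 := ne _ _ h3
    have hi : Function.Injective ![a, b, c] := by
      intro i j; fin_cases i <;> fin_cases j <;> simp [n1, n2, n3, n1.symm, n2.symm, n3.symm]
    have h := H 0 ![a, b, c] ⟨hi, fun j k hjk => ⟨fun _ => (by decide : ∀ j k : Fin 3, j ≠ k → j = k + 1 ∨ k = j + 1) j k hjk,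
      fun _ => nz _ _ (hi.ne hjk)⟩⟩ (Or.inl fun j => by fin_cases j <;> simp [h1, h2, h3])
    have g : ∀ x y, B0 x y = 1 → ((0 < GIM B0 lt x y ∧ p x < p y) ∨
        (¬ 0 < GIM B0 lt x y ∧ p y < p x)) := fun x y h => by
      unfold GIM
      by_cases l : lt x y
      · left; simp [l, h, hp x y l]
      · right
        have := (trichotomous_of lt x y).resolve_left l
        simp [l, h, ne x y h, hp y x (this.resolve_left (ne x y h))]
    rw [Finset.card_filter, Fin.sum_univ_three] at h
    have e0 : GIM B0 lt (![a, b, c] 0) (![a, b, c] (0 + 1)) = GIM B0 lt a b := rfl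
    have e1 : GIM B0 lt (![a, b, c] 1) (![a, b, c] (1 + 1)) = GIM B0 lt b c := rfl
    have e2 : GIM B0 lt (![a, b, c] 2) (![a, b, c] (2 + 1)) = GIM B0 lt c a := rfl
    rw [e0, e1, e2] at h
    rcases g a b h1 with ⟨a1, a2⟩ | ⟨a1, a2⟩ <;> rcases g b c h2 with ⟨b1, b2⟩ | ⟨b1, b2⟩ <;>
      rcases g c a h3 with ⟨c1, c2⟩ | ⟨c1, c2⟩ <;> simp only [a1, b1, c1, if_true, if_false] at h <;>
      first | omega | exact absurd (by decide) h
  exact core (p 0) (p 1) (p 2) (p 3) (p 4) (p 5) (p 6) (p 7) (p 8)
    (t 0 1 2 rfl rfl rfl) (t 0 1 5 rfl rfl rfl) (t 0 1 6 rfl rfl rfl) (t 0 3 2 rfl rfl rfl) (t 0 8 2 rfl rfl rfl) (t 0 8 6 rfl rfl rfl) (t 1 2 7 rfl rfl rfl) (t 1 4 3 rfl rfl rfl) (t 1 4 7 rfl rfl rfl) (t 1 4 8 rfl rfl rfl) (t 1 5 8 rfl rfl rfl) (t 2 4 8 rfl rfl rfl) (t 2 5 6 rfl rfl rfl) (t 2 5 8 rfl rfl rfl) (t 2 7 6 rfl rfl rfl) (t 3 5 6 rfl rfl rfl) (t 4 7 6 rfl rfl rfl) (t 4 8 6 rfl rfl rfl)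

end Pool.Agent.Results.MP_f0f309_al.NoOrdering
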